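import Pool.Agent.H67.AT.Targets
import Pool.Agent.H67.AT.Ser

/-!
# MP_81fcf0_co, row LVS: from a good block of level L to a path of edges
-/

set_option autoImplicit false

open Finset PowerSeries Pool.Agent.H67.AT

namespace Pool.Agent.H46.AT

theorem eta1_nn (m : ℕ) {ζ β g η : ℝ} (hζ : 0 ≤ ζ) (hβ : 0 ≤ β) (hg : 0 ≤ g) (hη : 0 ≤ η) :
    0 ≤ eta1 m ζ β g η := by
  unfold eta1; positivity

theorem eta2_nn (m : ℕ) {ζ β g η : ℝ} (hζ : 0 ≤ ζ) (hβ : 0 ≤ β) (hg : 0 ≤ g) (hη : 0 ≤ η) :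
    0 ≤ eta2 m ζ β g η :=
  eta1_nn m hζ hβ hg (eta1_nn m hζ hβ hg hη)

theorem iter_nn (m : ℕ) {ζ β g : ℝ} (hζ : 0 ≤ ζ) (hβ : 0 ≤ β) (hg : 0 ≤ g) (d : ℕ) :
    0 ≤ (eta2 m ζ β g)^[d] 0 := by
  induction d with
  | zero => simp
  | succ d ih =>
    rw [Function.iterate_succ_apply']
    exact eta2_nn m hζ hβ hg ih

theorem pf_LVS (hDWN : T_DWN) (hLST : T_LST) : T_LVS := by
  intro X E Y _ _ _ _ _ _ G k L m g β w₀ ζ good f hk hβ hg hw₀ hm hζ hf hG hlt x x' hx hroot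
  have hclaim : ∀ d ≤ L, ∃ w : ℕ → X, w 0 = x ∧ (∀ j < k ^ d, good (L - d) (w j) (w (j + 1))) ∧
      (∀ j < k ^ d, ∀ j' < k ^ d, j ≠ j' → ld (rho G k good β (L - d) (w j) (w (j + 1)))
        (rho G k good β (L - d) (w j') (w (j' + 1))) ≤ (eta2 m ζ β g)^[d] 0) ∧
      pth G k good β f L m w₀ (L - d) (k ^ d) w ≤
        ∑ τ : Idx X L, wgt w₀ τ * coeff (deg m τ) (qq G k good β f τ L x x').snd := by
    intro d
    induction d with
    | zero =>
      intro _
      refine ⟨fun n => if n = 0 then x else x', by simp, ?_, ?_, ?_⟩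
      · intro j hj
        have : j = 0 := by simpa using hj
        subst this
        simpa using hx
      · intro j hj j' hj' hne
        have h1 : j = 0 := by simpa using hj
        have h2 : j' = 0 := by simpa using hj'
        exact absurd (h1.trans h2.symm) hne
      · apply le_of_eq
        simp [pth]
    | succ d ih =>
      intro hd
      obtain ⟨w, h0, h1, h2, h3⟩ := ih (by omega)
      have hL : L - d = (L - (d + 1)) + 1 := by omega
      rw [hL] at h1 h2 h3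
      obtain ⟨w', e0, -, e1, e2, e3⟩ := hDWN X E Y G k L m g β w₀ ((eta2 m ζ β g)^[d] 0) ζ good f
        hk hβ hg hw₀ (iter_nn m hζ.le hβ.le (by linarith) d) hm hζ hf hG (L - (d + 1)) (by omega)
        (k ^ d) w h1 h2 (h3.trans_lt hroot)
      refine ⟨w', e0.trans h0, ?_, ?_, ?_⟩
      · rw [pow_succ]; exact e1
      · rw [pow_succ, Function.iterate_succ_apply']; exact e2
      · rw [pow_succ]; exact e3.trans h3
  obtain ⟨w, h0, h1, h2, h3⟩ := hclaim L le_rfl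
  rw [Nat.sub_self] at h1 h2 h3
  rw [Function.iterate_succ_apply'] at hlt
  obtain ⟨l, hl1, hl2, hl3, hl4, hl5⟩ := hLST X E Y G k L m g β w₀ ((eta2 m ζ β g)^[L] 0) ζ good f
    hβ hg hw₀ (iter_nn m hζ.le hβ.le (by linarith) L) hm hζ hf hG (k ^ L) w h1 h2
    (h3.trans_lt hroot) hlt
  refine ⟨l, hl1, hl2, ?_, hl4, hl5.trans (h3.trans hroot.le)⟩
  intro e he
  rw [hl3 e he, h0]

end Pool.Agent.H46.AT
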