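import Pool.Agent.H67.AT.Targets
import Pool.Agent.H67.AT.Ser

/-!
# MP_81fcf0_co, row QRC: recursion of the matrices of the series
-/

set_option autoImplicit false

open Finset PowerSeries Pool.Agent.H67.AT

namespace Pool.Agent.H46.AT

theorem dblp_smul (c : ℝ) (F : PS) : dblp (c • F) = c • dblp F := by
  ext n
  rw [coeff_dblp, PowerSeries.coeff_smul, PowerSeries.coeff_smul, PowerSeries.coeff_smul,
    coeff_dblp]
  split_ifs
  · rfl
  · simp only [smul_eq_mul]; ring

section

variable {X E Y : Type} [Fintype X] [DecidableEq X] [Fintype E] [DecidableEq E] [Fintype Y]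
  [DecidableEq Y]

theorem P_nn (G : Net X E Y) (x z : X) : 0 ≤ G.P x z := by
  refine Finset.sum_nonneg fun e _ => ?_
  split_ifs
  · exact G.nonneg e
  · exact le_rfl

theorem Ppow_nn (G : Net X E Y) (n : ℕ) (x z : X) : 0 ≤ (G.P ^ n) x z := by
  induction n generalizing x z with
  | zero =>
    rw [pow_zero, Matrix.one_apply]
    split_ifs <;> norm_num
  | succ n ih =>
    rw [pow_succ, Matrix.mul_apply]
    exact Finset.sum_nonneg fun i _ => mul_nonneg (ih _ _) (P_nn G _ _)

theorem key0 (G : Net X E Y) (x x' : X) (e : E) :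
    G.P x x' * mu0 G x x' e = if G.src e = x ∧ G.tgt e = x' then G.wt e else 0 := by
  rw [mu0]
  split_ifs with h
  · by_cases hP : G.P x x' = 0
    · have h1 : (∑ e, if G.src e = x ∧ G.tgt e = x' then G.wt e else 0) = 0 := hP
      have h2 := (Finset.sum_eq_zero_iff_of_nonneg (fun e _ => by
        split_ifs
        · exact G.nonneg e
        · exact le_rfl)).1 h1 e (Finset.mem_univ e)
      rw [if_pos h] at h2
      rw [hP, h2, zero_mul]
    · rw [mul_div_cancel₀ _ hP]
  · rw [mul_zero]

theorem skw_nn (G : Net X E Y) (n k : ℕ) (s : Fin (k + 1) → X) : 0 ≤ skw (G.P ^ n) s :=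
  Finset.prod_nonneg fun _ _ => Ppow_nn G n _ _

theorem sum_skw (hSKM : T_SKM) (G : Net X E Y) (k l : ℕ) (x x' : X) :
    (∑ s : Fin (k + 1) → X, if s 0 = x ∧ s (Fin.last k) = x' then skw (G.P ^ k ^ l) s else 0) =
      (G.P ^ k ^ (l + 1)) x x' := by
  have h := hSKM ℝ X k (fun _ => G.P ^ k ^ l) x x'
  rw [List.ofFn_const, List.prod_replicate, ← pow_mul, ← pow_succ] at h
  exact h

theorem keyl (hSKM : T_SKM) (G : Net X E Y) (k l : ℕ) (x x' : X) (s : Fin (k + 1) → X) :
    (G.P ^ k ^ (l + 1)) x x' * mu G k l x x' s =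
      if s 0 = x ∧ s (Fin.last k) = x' then skw (G.P ^ k ^ l) s else 0 := by
  rw [mu]
  split_ifs with h
  · by_cases hP : (G.P ^ k ^ (l + 1)) x x' = 0
    · have h1 := sum_skw hSKM G k l x x'
      rw [hP] at h1
      have h2 := (Finset.sum_eq_zero_iff_of_nonneg (fun s _ => by
        split_ifs
        · exact skw_nn G _ _ s
        · exact le_rfl)).1 h1 s (Finset.mem_univ s)
      rw [if_pos h] at h2
      rw [hP, h2, zero_mul]
    · rw [mul_div_cancel₀ _ hP]
  · rw [mul_zero]

end

theorem pf_QRC (hSK1 : T_SK1) (hSKM : T_SKM) (hMU1 : T_MU1) (hMU0 : T_MU0) : T_QRC := by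
  intro X E Y _ _ _ _ _ _ G k a mk hmk
  refine ⟨?_, ?_, ?_, ?_⟩
  · intro x x'
    rw [qF, Matrix.of_apply, pow_zero, pow_one, qs, TrivSqZeroExt.fst_add, hmk, add_zero, fst_dbl,
      fst_sum, ← dblp_smul, Finset.smul_sum]
    congr 1
    refine Finset.sum_congr rfl fun e _ => ?_
    rw [TrivSqZeroExt.fst_smul, smul_smul, key0]
    split_ifs
    · rfl
    · rw [zero_smul]
  · intro l x x'
    have hS := hSKM PS X k (fun _ => qF G k a mk l) x x'
    rw [List.ofFn_const, List.prod_replicate] at hS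
    rw [← hS]
    conv_lhs => rw [qF]
    rw [Matrix.of_apply, qs, TrivSqZeroExt.fst_add, hmk, add_zero, fst_dbl,
      fst_sum, ← dblp_smul, Finset.smul_sum]
    congr 1
    refine Finset.sum_congr rfl fun s _ => ?_
    rw [TrivSqZeroExt.fst_smul, smul_smul, keyl hSKM, fst_prod]
    split_ifs
    · rw [skw, ← Finset.prod_smul]
      rfl
    · rw [zero_smul]
  · intro x x'
    rw [qS, Matrix.of_apply, pow_zero, pow_one, qs, TrivSqZeroExt.snd_add, snd_dbl, snd_sum,
      smul_add, smul_comm, Finset.smul_sum]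
    congr 2
    refine Finset.sum_congr rfl fun e _ => ?_
    rw [TrivSqZeroExt.snd_smul, smul_smul, key0]
    split_ifs
    · rfl
    · rw [zero_smul]
  · intro l x x'
    have hS := hSK1 PS X k (qF G k a mk l) (qS G k a mk l) x x'
    rw [← hS]
    conv_lhs => rw [qS]
    rw [Matrix.of_apply, qs, TrivSqZeroExt.snd_add, snd_dbl, snd_sum, smul_add, smul_comm,
      Finset.smul_sum]
    congr 2
    refine Finset.sum_congr rfl fun s _ => ?_
    rw [TrivSqZeroExt.snd_smul, smul_smul, keyl hSKM, snd_prod]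
    split_ifs
    · rw [Finset.smul_sum]
      refine Finset.sum_congr rfl fun j _ => ?_
      rw [← Finset.mul_prod_erase Finset.univ _ (Finset.mem_univ j), if_pos rfl]
      have h1 : ∏ i ∈ Finset.univ.erase j,
          (if i = j then qS G k a mk l else qF G k a mk l) (s i.castSucc) (s i.succ) =
          ∏ i ∈ Finset.univ.erase j, (G.P ^ k ^ l) (s i.castSucc) (s i.succ) •
            (qs G k a mk l (s i.castSucc) (s i.succ)).fst := by
        refine Finset.prod_congr rfl fun i hi => ?_
        rw [if_neg (Finset.ne_of_mem_erase hi)]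
        rfl
      rw [h1, Finset.prod_smul, skw, ← Finset.mul_prod_erase Finset.univ _ (Finset.mem_univ j)]
      rw [qS, Matrix.of_apply, smul_mul_smul_comm]
    · rw [zero_smul]

end Pool.Agent.H46.AT
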